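import Mathlib
import Pool.Agent.H27.A7

set_option autoImplicit false

namespace Pool.Agent.H44B

open Complex Set MeasureTheory Filter Topology Asymptotics Pool.Agent.H27

/-- The bound for the non-rotated transform for t at least 1. -/
theorem mellin_hh_bound {e : ℝ} (he0 : 0 ≤ e) {α : ℝ} (hα : 0 < α) {β : ℕ → ℂ}
    (hβ : ∀ n : ℕ, (fun z : ℂ => gg α z - ∑ j ∈ Finset.range n, β j * z ^ j) =O[𝓝 0]
      fun z => ‖z‖ ^ n) {C : ℝ}
    (hC : ∀ t : ℝ, 1 ≤ t → ‖FF α β (1 + t * I)‖ ≤ C * t ^ e) {t : ℝ} (ht : 1 ≤ t) :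
    ‖mellin (fun t : ℝ => hh α β 2 (t : ℂ)) (1 + t * I)‖ ≤
      4 * (C + ‖β 0‖ + ‖β 1‖) * t ^ (1 / 2 + e) * Real.exp (-(Real.pi / 2 * t)) := by
  have ht0 : 0 < t := by linarith
  have hs : 0 < (1 + t * I : ℂ).re := by simp
  rw [mellin_hh_two hα hβ hs, norm_mul]
  have h1 := Gamma_bound ht
  have h2 := hC t ht
  have e1 : (1 + t * I : ℂ) - 1 = t * I := by ring
  have n1 : 1 ≤ ‖(1 + t * I : ℂ) - 1‖ := by
    rw [e1, norm_mul, norm_I, mul_one, Complex.norm_real, Real.norm_eq_abs, abs_of_pos ht0]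
    exact ht
  have n2 : 1 ≤ ‖(1 + t * I : ℂ) - 2‖ := by
    have := abs_im_le_norm ((1 + t * I : ℂ) - 2)
    simp at this
    rw [abs_of_pos ht0] at this
    linarith
  have hq : (1 : ℝ) ≤ t ^ e := Real.one_le_rpow ht he0
  have b1 : ‖β 1 * ((1 + t * I : ℂ) - 1)⁻¹‖ ≤ ‖β 1‖ * t ^ e := by
    rw [norm_mul, norm_inv]
    gcongr
    exact (inv_le_one_of_one_le₀ n1).trans hq
  have b0 : ‖β 0 * (((1 + t * I : ℂ) - 1) * ((1 + t * I : ℂ) - 2))⁻¹‖ ≤ ‖β 0‖ * t ^ e := by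
    rw [norm_mul, norm_inv, norm_mul]
    gcongr
    refine (inv_le_one_of_one_le₀ ?_).trans hq
    nlinarith
  have h3 : ‖FF α β (1 + t * I) - β 0 * (((1 + t * I : ℂ) - 1) * ((1 + t * I : ℂ) - 2))⁻¹ -
      β 1 * ((1 + t * I : ℂ) - 1)⁻¹‖ ≤ (C + ‖β 0‖ + ‖β 1‖) * t ^ e := by
    refine (norm_sub_le _ _).trans ?_
    have := norm_sub_le (FF α β (1 + t * I)) (β 0 * (((1 + t * I : ℂ) - 1) * ((1 + t * I : ℂ) - 2))⁻¹)
    linarith
  have hsplit : t ^ (1 / 2 + e) = t ^ (1 / 2 : ℝ) * t ^ e := by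
    rw [← Real.rpow_add ht0]
  calc ‖Gamma (1 + t * I)‖ * _ ≤ (4 * t ^ (1 / 2 : ℝ) * Real.exp (-(Real.pi / 2 * t))) *
        ((C + ‖β 0‖ + ‖β 1‖) * t ^ e) := by gcongr
    _ = _ := by rw [hsplit]; ring

/-- The integral of the rotated Mellin transform on the line re s = 1. -/
theorem integral_bound {e : ℝ} (he0 : 0 ≤ e) {α : ℝ} (hα : 0 < α) {β : ℕ → ℂ}
    (hβ : ∀ n : ℕ, (fun z : ℂ => gg α z - ∑ j ∈ Finset.range n, β j * z ^ j) =O[𝓝 0]
      fun z => ‖z‖ ^ n) {C : ℝ}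
    (hC : ∀ t : ℝ, 1 ≤ t → ‖FF α β (1 + t * I)‖ ≤ C * t ^ e) :
    ∃ A : ℝ, 0 < A ∧ ∀ θ : ℝ, 1 ≤ θ → θ < Real.pi / 2 →
      Integrable (fun y : ℝ => mellin (fun t : ℝ => hh α β 2 (cexp (θ * I) * t)) (1 + y * I)) ∧
      ∫ y : ℝ, ‖mellin (fun t : ℝ => hh α β 2 (cexp (θ * I) * t)) (1 + y * I)‖ ≤
        A * (1 + (1 / (Real.pi / 2 - θ)) ^ (3 / 2 + e)) := by
  set B : ℝ := ∫ x : ℝ in Ioi 0, ‖hh α β 2 (x : ℂ)‖ with hB
  have hB0 : 0 ≤ B := integral_nonneg (fun _ => norm_nonneg _)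
  have hC0 : 0 ≤ C := by
    have := (norm_nonneg _).trans (hC 1 le_rfl)
    simpa using this
  set K : ℝ := 4 * (C + ‖β 0‖ + ‖β 1‖) with hK
  have hK0 : 0 ≤ K := by positivity
  have hpe : 0 < 3 / 2 + e := by linarith
  have hG : 0 < Real.Gamma (3 / 2 + e) := Real.Gamma_pos_of_pos hpe
  have hpe1 : (3 / 2 + e) - 1 = 1 / 2 + e := by ring
  refine ⟨B * Real.exp 2 + K * Real.Gamma (3 / 2 + e) + 1, by positivity, fun θ hθ1 hθ2 => ?_⟩
  have hpi := Real.pi_pos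
  have hpi4 := Real.pi_lt_four
  set δ : ℝ := Real.pi / 2 - θ with hδ
  have hδ0 : 0 < δ := by linarith
  have hu : 0 < (cexp (θ * I)).re := by
    rw [Complex.exp_ofReal_mul_I_re]
    exact Real.cos_pos_of_mem_Ioo ⟨by linarith, by linarith⟩
  set M : ℝ → ℂ := fun y : ℝ => mellin (fun t : ℝ => hh α β 2 (cexp (θ * I) * t)) (1 + y * I) with hM
  have hcont : Continuous M := by
    rw [continuous_iff_continuousAt]
    intro y
    have hd := differentiableAt_mellin_hh hα hβ 2 hu (s := (1 + y * I : ℂ)) (by simp)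
    exact ContinuousAt.comp (f := fun y : ℝ => (1 + y * I : ℂ)) hd.continuousAt (by fun_prop)
  have hMeq : ∀ y : ℝ, ‖M y‖ = Real.exp (θ * y) *
      ‖mellin (fun t : ℝ => hh α β 2 (t : ℂ)) (1 + y * I)‖ := by
    intro y
    simp only [hM]
    rw [mellin_hh_rot hα hβ 2 hu (by simp), norm_mul, norm_cpow_rot (by linarith) (by linarith)]
  have hM1 : ∀ y : ℝ, y ≤ 1 → ‖M y‖ ≤ (B * Real.exp 1) * Real.exp y := by
    intro y hy
    rw [hMeq]
    have h1 := mellin_trivial_bound (fun t : ℝ => hh α β 2 (t : ℂ)) y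
    have h2 : Real.exp (θ * y) ≤ Real.exp (1 + y) := by
      apply Real.exp_le_exp.mpr
      rcases le_total 0 y with h | h
      · nlinarith
      · nlinarith
    rw [Real.exp_add] at h2
    calc Real.exp (θ * y) * ‖mellin (fun t : ℝ => hh α β 2 (t : ℂ)) (1 + y * I)‖
        ≤ (Real.exp 1 * Real.exp y) * B := by gcongr
      _ = _ := by ring
  have hM2 : ∀ y : ℝ, 1 ≤ y → ‖M y‖ ≤ K * (y ^ ((3 / 2 + e) - 1) * Real.exp (-(δ * y))) := by
    intro y hy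
    rw [hMeq]
    have h1 := mellin_hh_bound he0 hα hβ hC hy
    have h3 : Real.exp (-(δ * y)) = Real.exp (θ * y) * Real.exp (-(Real.pi / 2 * y)) := by
      rw [← Real.exp_add, hδ]; congr 1; ring
    calc Real.exp (θ * y) * ‖mellin (fun t : ℝ => hh α β 2 (t : ℂ)) (1 + y * I)‖
        ≤ Real.exp (θ * y) * (K * y ^ (1 / 2 + e) * Real.exp (-(Real.pi / 2 * y))) := by gcongr
      _ = _ := by rw [h3, hpe1]; ring
  have hI1 : IntegrableOn M (Iic 1) := by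
    refine Integrable.mono' ((integrableOn_exp_Iic 1).const_mul (B * Real.exp 1))
      hcont.aestronglyMeasurable ?_
    exact (ae_restrict_mem measurableSet_Iic).mono fun y hy => hM1 y hy
  have hI2' : IntegrableOn (fun y : ℝ => K * (y ^ ((3 / 2 + e) - 1) * Real.exp (-(δ * y)))) (Ioi 0) :=
    (integrableOn_rpow_exp hpe hδ0).const_mul K
  have hI2 : IntegrableOn M (Ioi 1) := by
    refine Integrable.mono' (hI2'.mono_set (Ioi_subset_Ioi zero_le_one))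
      hcont.aestronglyMeasurable ?_
    exact (ae_restrict_mem measurableSet_Ioi).mono fun y hy => hM2 y (le_of_lt hy)
  have hint : Integrable M := by
    rw [← integrableOn_univ, ← Iic_union_Ioi (a := (1 : ℝ))]
    exact hI1.union hI2
  refine ⟨hint, ?_⟩
  have hsplit : ∫ y : ℝ, ‖M y‖ = (∫ y in Iic (1 : ℝ), ‖M y‖) + ∫ y in Ioi (1 : ℝ), ‖M y‖ := by
    rw [← intervalIntegral.integral_Iic_add_Ioi hI1.norm hI2.norm]
  have hb1 : ∫ y in Iic (1 : ℝ), ‖M y‖ ≤ B * Real.exp 2 := by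
    have h1 : ∫ y in Iic (1 : ℝ), ‖M y‖ ≤ ∫ y in Iic (1 : ℝ), (B * Real.exp 1) * Real.exp y := by
      refine setIntegral_mono_on hI1.norm ((integrableOn_exp_Iic 1).const_mul _)
        measurableSet_Iic (fun y hy => hM1 y hy)
    rw [integral_const_mul, integral_exp_Iic] at h1
    have h2 : Real.exp 2 = Real.exp 1 * Real.exp 1 := by rw [← Real.exp_add]; norm_num
    rw [h2]; linarith
  have hb2 : ∫ y in Ioi (1 : ℝ), ‖M y‖ ≤ K * ((1 / δ) ^ (3 / 2 + e) * Real.Gamma (3 / 2 + e)) := by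
    have h1 : ∫ y in Ioi (1 : ℝ), ‖M y‖ ≤
        ∫ y in Ioi (1 : ℝ), K * (y ^ ((3 / 2 + e) - 1) * Real.exp (-(δ * y))) := by
      refine setIntegral_mono_on hI2.norm (hI2'.mono_set (Ioi_subset_Ioi zero_le_one))
        measurableSet_Ioi (fun y hy => hM2 y (le_of_lt hy))
    have h2 : ∫ y in Ioi (1 : ℝ), K * (y ^ ((3 / 2 + e) - 1) * Real.exp (-(δ * y))) ≤
        ∫ y in Ioi (0 : ℝ), K * (y ^ ((3 / 2 + e) - 1) * Real.exp (-(δ * y))) := by
      refine setIntegral_mono_set hI2' ?_ (Ioi_subset_Ioi zero_le_one).eventuallyLE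
      refine (ae_restrict_mem measurableSet_Ioi).mono fun y hy => ?_
      have : (0 : ℝ) < y := hy
      simp only [Pi.zero_apply]
      positivity
    rw [integral_const_mul, integral_const_mul,
      Real.integral_rpow_mul_exp_neg_mul_Ioi hpe hδ0] at h2
    rw [integral_const_mul] at h1
    linarith
  rw [hsplit]
  have hp : 0 ≤ (1 / δ) ^ (3 / 2 + e) := by positivity
  have hx : 0 ≤ B * Real.exp 2 := by positivity
  have hy : 0 ≤ K * Real.Gamma (3 / 2 + e) := by positivity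
  calc (∫ y in Iic (1 : ℝ), ‖M y‖) + ∫ y in Ioi (1 : ℝ), ‖M y‖
      ≤ B * Real.exp 2 + K * ((1 / δ) ^ (3 / 2 + e) * Real.Gamma (3 / 2 + e)) := add_le_add hb1 hb2
    _ ≤ (B * Real.exp 2 + K * Real.Gamma (3 / 2 + e) + 1) * (1 + (1 / δ) ^ (3 / 2 + e)) := by
        nlinarith [mul_nonneg hx hp, mul_nonneg hy hp]

end Pool.Agent.H44B
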