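import Mathlib
import Pool.Agent.H44B.A5

set_option autoImplicit false

namespace Pool.Agent.H44B

open Complex Set MeasureTheory Filter Topology Asymptotics Pool.Agent.H27

/-- Upper bound for hh α β 2 near the imaginary axis, from Mellin inversion. -/
theorem upper_bound {e : ℝ} (he0 : 0 ≤ e) {α : ℝ} (hα : 0 < α) {β : ℕ → ℂ}
    (hβ : ∀ n : ℕ, (fun z : ℂ => gg α z - ∑ j ∈ Finset.range n, β j * z ^ j) =O[𝓝 0]
      fun z => ‖z‖ ^ n) {C : ℝ}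
    (hC : ∀ t : ℝ, 1 ≤ t → ‖FF α β (1 + t * I)‖ ≤ C * t ^ e) :
    ∃ A : ℝ, 0 < A ∧ ∀ θ x : ℝ, 1 ≤ θ → θ < Real.pi / 2 → 0 < x →
      ‖hh α β 2 (cexp (θ * I) * x)‖ ≤ x⁻¹ * (A * (1 + (1 / (Real.pi / 2 - θ)) ^ (3 / 2 + e))) := by
  obtain ⟨A, hA, h⟩ := integral_bound he0 hα hβ hC
  refine ⟨A, hA, fun θ x hθ1 hθ2 hx => ?_⟩
  obtain ⟨hint, hb⟩ := h θ hθ1 hθ2
  have hpi := Real.pi_gt_three
  have hu : 0 < (cexp (θ * I)).re := by
    rw [Complex.exp_ofReal_mul_I_re]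
    exact Real.cos_pos_of_mem_Ioo ⟨by linarith, by linarith⟩
  have hconv : MellinConvergent (fun t : ℝ => hh α β 2 (cexp (θ * I) * t)) ((1 : ℝ) : ℂ) :=
    mellinConvergent_hh hα hβ 2 hu (by simp)
  have hvert : VerticalIntegrable (mellin (fun t : ℝ => hh α β 2 (cexp (θ * I) * t))) 1 := by
    unfold VerticalIntegrable
    simpa using hint
  have hcont : ContinuousAt (fun t : ℝ => hh α β 2 (cexp (θ * I) * t)) x :=
    (continuousOn_hh_comp hα β 2 hu).continuousAt (Ioi_mem_nhds hx)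
  have hinv := mellinInv_mellin_eq 1 _ hx hconv hvert hcont
  rw [← hinv]
  unfold mellinInv
  rw [norm_smul, Real.norm_eq_abs, abs_of_pos (by positivity)]
  have h1 : ‖∫ y : ℝ, (x : ℂ) ^ (-(((1 : ℝ) : ℂ) + y * I)) •
      mellin (fun t : ℝ => hh α β 2 (cexp (θ * I) * t)) (((1 : ℝ) : ℂ) + y * I)‖ ≤
      x⁻¹ * (A * (1 + (1 / (Real.pi / 2 - θ)) ^ (3 / 2 + e))) := by
    refine (norm_integral_le_integral_norm _).trans ?_
    have ey : ∀ y : ℝ, ‖(x : ℂ) ^ (-(((1 : ℝ) : ℂ) + y * I)) •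
      mellin (fun t : ℝ => hh α β 2 (cexp (θ * I) * t)) (((1 : ℝ) : ℂ) + y * I)‖ =
      x⁻¹ * ‖mellin (fun t : ℝ => hh α β 2 (cexp (θ * I) * t)) (1 + y * I)‖ := by
      intro y
      rw [norm_smul, norm_cpow_eq_rpow_re_of_pos hx]
      simp [Real.rpow_neg_one]
    simp_rw [ey]
    rw [integral_const_mul]
    gcongr
  have h2 : 1 / (2 * Real.pi) ≤ 1 := by
    rw [div_le_one (by positivity)]; linarith
  calc 1 / (2 * Real.pi) * _ ≤ 1 * (x⁻¹ * (A * (1 + (1 / (Real.pi / 2 - θ)) ^ (3 / 2 + e)))) := by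
        apply mul_le_mul h2 h1 (norm_nonneg _) zero_le_one
    _ = _ := one_mul _

/-- The key inequality. -/
theorem key_ineq {e : ℝ} (he0 : 0 ≤ e) (he1 : e < 1 / 2) {α : ℝ} (hα : 0 < α) {β : ℕ → ℂ}
    (hβ : ∀ n : ℕ, (fun z : ℂ => gg α z - ∑ j ∈ Finset.range n, β j * z ^ j) =O[𝓝 0]
      fun z => ‖z‖ ^ n) {C : ℝ}
    (hC : ∀ t : ℝ, 1 ≤ t → ‖FF α β (1 + t * I)‖ ≤ C * t ^ e) :
    ∃ K : ℝ, 0 < K ∧ ∀ (q : ℕ) (p : ℤ) (η : ℝ), 1 ≤ q → 0 < η → η ≤ 1 / (α + 7) →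
      |q * α - p| ≤ η → 1 ≤ K * q * η ^ (1 / 2 - e) := by
  obtain ⟨A, hA, hup⟩ := upper_bound he0 hα hβ hC
  set c : ℝ := Real.exp (-1) / (2 * (α + 7)) with hc
  have hc0 : 0 < c := by positivity
  refine ⟨((‖β 0‖ + ‖β 1‖) + 16 * A) / c, by positivity, fun q p η hq hη hη1 hpq => ?_⟩
  have hlow := lower_bound hα β hq hη hη1 hpq
  set z : ℂ := η + 2 * Real.pi * q * I with hz
  have hη2 : η ≤ 1 := hη1.trans (by rw [div_le_one (by positivity)]; linarith)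
  have hq' : (1 : ℝ) ≤ q := by exact_mod_cast hq
  have hpi3 := Real.pi_gt_three
  have hpi := Real.pi_lt_d2
  have hzre : z.re = η := by simp [hz]
  have hzim : z.im = 2 * Real.pi * q := by simp [hz]
  have hzge : 2 * Real.pi * q ≤ ‖z‖ := by
    have h1 := abs_im_le_norm z
    rwa [hzim, abs_of_pos (by positivity)] at h1
  have hz1 : 1 ≤ ‖z‖ := by nlinarith
  have hz0 : z ≠ 0 := by
    intro h0; rw [h0, norm_zero] at hz1; linarith
  have hzle : ‖z‖ ≤ 8 * q := by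
    have h1 := Complex.norm_le_abs_re_add_abs_im z
    rw [hzre, hzim, abs_of_pos hη, abs_of_pos (by positivity)] at h1
    nlinarith
  set θ : ℝ := arg z with hθ
  have hcos : Real.cos θ = η / ‖z‖ := by rw [hθ, Complex.cos_arg hz0, hzre]
  have hθ0 : 0 ≤ θ := by
    rw [hθ, Complex.arg_nonneg_iff, hzim]; positivity
  have hθ2 : θ < Real.pi / 2 := by
    have h1 : |arg z| < Real.pi / 2 := by
      rw [Complex.abs_arg_lt_pi_div_two_iff]; left; rw [hzre]; exact hη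
    exact (le_abs_self _).trans_lt h1
  have hθ1 : 1 ≤ θ := by
    by_contra hcon
    push Not at hcon
    have h1 : Real.cos 1 < Real.cos θ :=
      Real.cos_lt_cos_of_nonneg_of_le_pi hθ0 (by linarith) hcon
    have h2 : (1 : ℝ) / 2 ≤ Real.cos 1 := by
      have := Real.one_sub_sq_div_two_le_cos (x := 1)
      norm_num at this ⊢
      linarith
    have h3 : η / ‖z‖ ≤ 1 / 6 := by
      rw [div_le_div_iff₀ (by positivity) (by norm_num)]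
      nlinarith
    rw [hcos] at h1
    linarith
  have hzeq : cexp (θ * I) * (‖z‖ : ℝ) = z := by
    rw [mul_comm]; exact Complex.norm_mul_exp_arg_mul_I z
  have hx : 0 < ‖z‖ := by linarith
  have hupz := hup θ ‖z‖ hθ1 hθ2 hx
  rw [hzeq] at hupz
  have hδ : η / ‖z‖ ≤ Real.pi / 2 - θ := by
    rw [← hcos, ← Real.sin_pi_div_two_sub]
    exact Real.sin_le (by linarith)
  have hδ0 : 0 < η / ‖z‖ := by positivity
  have hinvδ : 1 / (Real.pi / 2 - θ) ≤ ‖z‖ / η := by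
    have h1 := one_div_le_one_div_of_le hδ0 hδ
    rwa [one_div_div] at h1
  have hpow : (1 / (Real.pi / 2 - θ)) ^ (3 / 2 + e) ≤ (‖z‖ / η) ^ (3 / 2 + e) := by
    apply Real.rpow_le_rpow _ hinvδ (by linarith)
    have : 0 < Real.pi / 2 - θ := by linarith
    positivity
  have hge1 : 1 ≤ ‖z‖ / η := by
    rw [le_div_iff₀ hη]; linarith
  have hpow1 : 1 ≤ (‖z‖ / η) ^ (3 / 2 + e) := Real.one_le_rpow hge1 (by linarith)
  -- upper bound in terms of q and η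
  have hup2 : ‖hh α β 2 z‖ ≤ 16 * A * q * (η ^ (3 / 2 + e))⁻¹ := by
    refine hupz.trans ?_
    have h1 : A * (1 + (1 / (Real.pi / 2 - θ)) ^ (3 / 2 + e)) ≤ A * (2 * (‖z‖ / η) ^ (3 / 2 + e)) := by
      gcongr
      linarith
    have h2 : (‖z‖ / η) ^ (3 / 2 + e) ≤ ‖z‖ ^ (2 : ℝ) * (η ^ (3 / 2 + e))⁻¹ := by
      rw [Real.div_rpow hx.le hη.le, div_eq_mul_inv]
      have h3 : ‖z‖ ^ (3 / 2 + e) ≤ ‖z‖ ^ (2 : ℝ) :=
        Real.rpow_le_rpow_of_exponent_le hz1 (by linarith)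
      exact mul_le_mul_of_nonneg_right h3 (by positivity)
    calc ‖z‖⁻¹ * (A * (1 + (1 / (Real.pi / 2 - θ)) ^ (3 / 2 + e)))
        ≤ ‖z‖⁻¹ * (A * (2 * (‖z‖ ^ (2 : ℝ) * (η ^ (3 / 2 + e))⁻¹))) := by
          refine mul_le_mul_of_nonneg_left (h1.trans ?_) (by positivity)
          exact mul_le_mul_of_nonneg_left (mul_le_mul_of_nonneg_left h2 (by norm_num)) hA.le
      _ = 2 * A * ‖z‖ * (η ^ (3 / 2 + e))⁻¹ := by
          rw [Real.rpow_two]; field_simp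
      _ ≤ 2 * A * (8 * q) * (η ^ (3 / 2 + e))⁻¹ := by gcongr
      _ = _ := by ring
  have hcomb := hlow.trans hup2
  have e1 : Real.exp (-1) / (2 * (α + 7) * η ^ 2) = c * (η ^ 2)⁻¹ := by
    rw [hc]; field_simp
  rw [e1] at hcomb
  have hpe : η ^ 2 = η ^ (3 / 2 + e) * η ^ (1 / 2 - e) := by
    rw [← Real.rpow_add hη, ← Real.rpow_two]; congr 1; ring
  have hη74 : 0 < η ^ (3 / 2 + e) := by positivity
  have hη14 : 0 < η ^ (1 / 2 - e) := by positivity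
  have hη74' : η ^ (3 / 2 + e) ≤ 1 := Real.rpow_le_one hη.le hη2 (by linarith)
  have h7 : c * (η ^ 2)⁻¹ ≤ ((‖β 0‖ + ‖β 1‖) + 16 * A) * q * (η ^ (3 / 2 + e))⁻¹ := by
    have h8 : (‖β 0‖ + ‖β 1‖) ≤ (‖β 0‖ + ‖β 1‖) * q * (η ^ (3 / 2 + e))⁻¹ := by
      have : 1 ≤ (η ^ (3 / 2 + e))⁻¹ := (one_le_inv₀ hη74).mpr hη74'
      have h9 : 1 ≤ q * (η ^ (3 / 2 + e))⁻¹ := one_le_mul_of_one_le_of_one_le hq' this
      calc (‖β 0‖ + ‖β 1‖) = (‖β 0‖ + ‖β 1‖) * 1 := by ring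
        _ ≤ (‖β 0‖ + ‖β 1‖) * (q * (η ^ (3 / 2 + e))⁻¹) := by gcongr
        _ = _ := by ring
    calc c * (η ^ 2)⁻¹ ≤ (‖β 0‖ + ‖β 1‖) + 16 * A * q * (η ^ (3 / 2 + e))⁻¹ := by linarith
      _ ≤ (‖β 0‖ + ‖β 1‖) * q * (η ^ (3 / 2 + e))⁻¹ + 16 * A * q * (η ^ (3 / 2 + e))⁻¹ := by linarith
      _ = _ := by ring
  have h10 : c ≤ ((‖β 0‖ + ‖β 1‖) + 16 * A) * q * η ^ (1 / 2 - e) := by
    have hm := mul_le_mul_of_nonneg_right h7 (show 0 ≤ η ^ 2 by positivity)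
    have e2 : c * (η ^ 2)⁻¹ * η ^ 2 = c := by field_simp
    have e3 : ((‖β 0‖ + ‖β 1‖) + 16 * A) * q * (η ^ (3 / 2 + e))⁻¹ * η ^ 2 =
        ((‖β 0‖ + ‖β 1‖) + 16 * A) * q * η ^ (1 / 2 - e) := by
      rw [hpe]; field_simp
    rwa [e2, e3] at hm
  calc (1 : ℝ) = c / c := by field_simp
    _ ≤ (((‖β 0‖ + ‖β 1‖) + 16 * A) * q * η ^ (1 / 2 - e)) / c := by gcongr
    _ = _ := by ring

end Pool.Agent.H44B
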